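import Pool.Agent.X238.DW.Stm3

set_option autoImplicit false

namespace Pool.Agent.X154.DW

open MeasureTheory Set Filter Topology
open Pool.Agent.X238.DW
open Pool.Agent.Results.MP_8bcfe8_an.VelocityConstantMonotone (IsSol Adm)

universe v

theorem cutL_cont (n : ℕ) : Continuous (cutL n) := by unfold cutL; fun_prop
theorem cutL0 (n : ℕ) (t : ℝ) : 0 ≤ cutL n t := le_max_left _ _
theorem cutL1 (n : ℕ) (t : ℝ) : cutL n t ≤ 1 := max_le zero_le_one (min_le_left _ _)
theorem cutL_pos (n : ℕ) {t : ℝ} (ht : 0 < t) : cutL n t = 0 := by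
  unfold cutL
  apply max_eq_left
  refine (min_le_right _ _).trans ((min_le_right _ _).trans ?_)
  have : (0 : ℝ) < (n + 1) * t := by positivity
  linarith
theorem cutL_far (n : ℕ) {t : ℝ} (ht : ((n : ℝ) + 1) ≤ |t|) : cutL n t = 0 := by
  rcases lt_or_ge 0 t with h | h
  · exact cutL_pos n h
  · rw [abs_of_nonpos h] at ht
    unfold cutL
    apply max_eq_left
    refine (min_le_right _ _).trans ((min_le_left _ _).trans ?_)
    linarith

theorem t_LOW : S_LOW.{v} := by
  intro hEXI hCO H _ _ _ A b T hb hI b' c K hb' hc hK0 hadm y η hη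
  obtain ⟨γ0, hγ0, hE⟩ := Pool.Agent.X245.DW.t_EXB2.{v} c c b' hc le_rfl hb'
  obtain ⟨C0, hC0, hE⟩ := hE γ0 hγ0 le_rfl
  set S : H →L[ℝ] H := T.comp T with hS
  have hSa : ∀ x, S x = T (T x) := fun x => rfl
  have hγ2 : 0 < γ0 / 2 := by linarith
  set M : ℝ := ‖S‖ * (C0 * ‖y‖) with hM
  obtain ⟨n, δ, hδ, hco⟩ := hCO M (γ0 / 2) (η / 2) hγ2 (by linarith)
  obtain ⟨C, hC, hex⟩ := hEXI c b' (n + 1) hc hb' (by positivity)
  set m : ℝ := C0 * ‖y‖ / δ with hm
  have hm0 : 0 ≤ m := by positivity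
  set X : ℝ := K * (C * m) * ‖S y‖ with hX
  have hX0 : 0 ≤ X := by positivity
  refine ⟨η / (2 * (X + 1)), by positivity, ?_⟩
  intro ε B hε hεe hB p h hker
  have hcommS : ∀ x, B (S x) = S (B x) := by
    intro x
    rw [hSa, hSa, hB.comm, hB.comm]
  have hhc : Continuous h := continuous_iff_continuousAt.2 fun s => (hker.dG s).continuousAt
  -- decay
  have hdec : ∀ s : ℝ, 0 ≤ s → ‖p s‖ ≤ C0 * ‖y‖ * Real.exp (-(γ0 / 2 * s)) ∧
      ‖h s‖ ≤ C0 * ‖y‖ * Real.exp (-(γ0 / 2 * s)) := by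
    intro s hs
    have := hE H B hB.coer c ⟨le_rfl, le_rfl⟩ p h (fun _ => 0) 0 le_rfl (fun s _ => hker.dP s)
      (fun s _ => by simpa using hker.dG s) hker.P0 (fun s _ => by simp) s hs
    rw [hker.G0, add_zero] at this
    exact this
  -- the forcing
  have hδ' : ∀ z : H, 0 < ‖z‖ + δ := fun z => add_pos_of_nonneg_of_pos (norm_nonneg _) hδ
  let φ : ℝ → H := fun τ => (cutL n τ / (‖S (h (-τ))‖ + δ)) • h (-τ)
  have hgn : Continuous fun τ : ℝ => h (-τ) := hhc.comp continuous_neg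
  have hSg : Continuous fun τ : ℝ => S (h (-τ)) := S.continuous.comp hgn
  have hφ : Continuous φ :=
    ((cutL_cont n).div (hSg.norm.add continuous_const) fun τ => (hδ' _).ne').smul hgn
  have hφ0 : ∀ t, ((n : ℝ) + 1) ≤ |t| → φ t = 0 := by
    intro t ht
    show (cutL n t / _) • _ = 0
    rw [cutL_far n ht, zero_div, zero_smul]
  have hφm : ∀ t, ‖φ t‖ ≤ m := by
    intro t
    show ‖(cutL n t / (‖S (h (-t))‖ + δ)) • h (-t)‖ ≤ m
    rcases lt_or_ge 0 t with ht | ht
    · rw [cutL_pos n ht, zero_div, zero_smul, norm_zero]; exact hm0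
    · rw [norm_smul, Real.norm_eq_abs, abs_of_nonneg (div_nonneg (cutL0 n t) (hδ' _).le), hm]
      have h1 := (hdec (-t) (by linarith)).2
      have h2 : Real.exp (-(γ0 / 2 * -t)) ≤ 1 := by
        apply Real.exp_le_one_iff.2
        nlinarith
      have h3 : ‖h (-t)‖ ≤ C0 * ‖y‖ :=
        h1.trans (mul_le_of_le_one_right (by positivity) h2)
      have h4 : cutL n t / (‖S (h (-t))‖ + δ) ≤ 1 / δ := by
        exact div_le_div₀ zero_le_one (cutL1 n t) hδ
          (by linarith [norm_nonneg (S (h (-t)))])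
      calc cutL n t / (‖S (h (-t))‖ + δ) * ‖h (-t)‖ ≤ 1 / δ * (C0 * ‖y‖) :=
            mul_le_mul h4 h3 (norm_nonneg _) (by positivity)
        _ = C0 * ‖y‖ / δ := by ring
  obtain ⟨υ, ω, hυ, hω, hbd⟩ := hex H B hB.coer φ m hφ hφ0 hφm
  set u : ℝ → H := fun t => S (υ t) with hu
  set w : ℝ → H := fun t => S (ω t) with hw
  have hu' : ∀ t, HasDerivAt u (w t) t := fun t => S.hasFDerivAt.comp_hasDerivAt t (hυ t)
  have hw' : ∀ t, HasDerivAt w (S (φ t) - c • w t - B (u t)) t := by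
    intro t
    have h1 : HasDerivAt w (S (φ t - c • ω t - B (υ t))) t := S.hasFDerivAt.comp_hasDerivAt t (hω t)
    refine h1.congr_deriv ?_
    have e1 : S (c • ω t) = c • S (ω t) := S.map_smul c (ω t)
    show S (φ t - c • ω t - B (υ t)) = S (φ t) - c • S (ω t) - B (S (υ t))
    rw [map_sub, map_sub, e1, hcommS]
  have huc : Continuous u := continuous_iff_continuousAt.2 fun s => (hu' s).continuousAt
  have hwc : Continuous w := continuous_iff_continuousAt.2 fun s => (hw' s).continuousAt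
  have hυc : Continuous υ := continuous_iff_continuousAt.2 fun s => (hυ s).continuousAt
  have hSφ : Continuous fun t => S (φ t) := S.continuous.comp hφ
  set M' : ℝ := max 1 (‖S‖ * (C * m)) with hM'
  have huM : ∀ t, ‖u t‖ ≤ M' := fun t => (S.le_opNorm_of_le (hbd t).1).trans (le_max_right _ _)
  have hwM : ∀ t, ‖w t‖ ≤ M' := fun t => (S.le_opNorm_of_le (hbd t).2).trans (le_max_right _ _)
  have hSφn : ∀ t, ‖S (φ t)‖ ≤ 1 := by
    intro t
    show ‖S ((cutL n t / (‖S (h (-t))‖ + δ)) • h (-t))‖ ≤ 1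
    rw [map_smul, norm_smul, Real.norm_eq_abs, abs_of_nonneg (div_nonneg (cutL0 n t) (hδ' _).le),
      div_mul_eq_mul_div, div_le_one (hδ' _)]
    have h3 : cutL n t * ‖S (h (-t))‖ ≤ 1 * ‖S (h (-t))‖ :=
      mul_le_mul_of_nonneg_right (cutL1 n t) (norm_nonneg _)
    linarith
  have hsu : ∀ s t : ℝ, u t - u s = ∫ τ in s..t, w τ := fun s t =>
    (intervalIntegral.integral_eq_sub_of_hasDerivAt (fun x _ => hu' x)
      (hwc.intervalIntegrable _ _)).symm
  have hsw : ∀ s t : ℝ, w t - w s = ∫ τ in s..t, (S (φ τ) - c • w τ - B (u τ)) := fun s t =>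
    (intervalIntegral.integral_eq_sub_of_hasDerivAt (fun x _ => hw' x)
      (((hSφ.sub (hwc.const_smul c)).sub (B.continuous.comp huc)).intervalIntegrable _ _)).symm
  -- the solution for `A`
  set f : ℝ → H := fun t => S (φ t) + ε • B (T (υ t)) with hf
  have hfc : Continuous f := hSφ.add ((B.continuous.comp (T.continuous.comp hυc)).const_smul ε)
  have hfn : ∀ t, ‖f t‖ ≤ 1 + ε * (C * m) := by
    intro t
    refine (norm_add_le _ _).trans (add_le_add (hSφn t) ?_)
    rw [norm_smul, Real.norm_eq_abs, abs_of_pos hε]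
    exact mul_le_mul_of_nonneg_left ((hB.contr _).trans (hbd t).1) hε.le
  have hsol : IsSol A c f u w := by
    refine ⟨huc, hwc, ⟨M', fun t => ⟨huM t, hwM t⟩⟩, hsu, ?_⟩
    intro z s t
    have h2 : ∀ t, HasDerivAt (fun t => inner ℝ (w t) (z : H))
        (inner ℝ (f t) (z : H) - c * inner ℝ (w t) (z : H) - inner ℝ (u t) (A z)) t := by
      intro t
      have h3 := (hw' t).inner ℝ (hasDerivAt_const t (z : H))
      refine h3.congr_deriv ?_
      rw [inner_zero_right, zero_add]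
      have h4 : inner ℝ (u t) (A z) = inner ℝ (B (u t)) (z : H) + ε * inner ℝ (B (T (υ t))) (z : H) := by
        have h5 := hB.left (T (υ t))
        have h6 : inner ℝ (u t) (A z) = inner ℝ (T (υ t)) (z : H) := by
          show inner ℝ (T (T (υ t))) (A z) = _
          rw [hI.symm, hI.left]
        have h7 : inner ℝ (T (υ t)) (z : H) =
            inner ℝ (B (T (T (υ t))) + ε • B (T (υ t))) (z : H) := by rw [h5]
        rw [h6, h7, inner_add_left, real_inner_smul_left]
        rfl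
      rw [h4]
      simp only [hf, inner_add_left, inner_sub_left, real_inner_smul_left]
      ring
    have h5 := intervalIntegral.integral_eq_sub_of_hasDerivAt (a := s) (b := t) (fun x _ => h2 x) ?_
    · rw [inner_sub_left]
      exact h5.symm
    · apply Continuous.intervalIntegrable
      exact ((hfc.inner continuous_const).sub (continuous_const.mul
        (hwc.inner continuous_const))).sub (huc.inner continuous_const)
  have hKK := hadm f u w (1 + ε * (C * m)) hfc.aestronglyMeasurable (Eventually.of_forall hfn) hsol 0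
  -- representation
  have hker2 : KerV c B (S y) (fun s => S (p s)) (fun s => S (h s)) := by
    refine ⟨fun s => S.hasFDerivAt.comp_hasDerivAt s (hker.dP s), ?_, ?_, ?_⟩
    · intro s
      have h1 : HasDerivAt (fun s => S (h s)) (S (-(c • h s) - B (p s))) s :=
        S.hasFDerivAt.comp_hasDerivAt s (hker.dG s)
      refine h1.congr_deriv ?_
      rw [map_sub, map_neg, map_smul, hcommS]
    · show S (p 0) = 0
      rw [hker.P0, map_zero]
    · show S (h 0) = S y
      rw [hker.G0]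
  have hdecS : ∀ s : ℝ, 0 ≤ s → ‖S (p s)‖ ≤ M * Real.exp (-(γ0 / 2 * s)) ∧
      ‖S (h s)‖ ≤ M * Real.exp (-(γ0 / 2 * s)) := by
    intro s hs
    refine ⟨(S.le_opNorm_of_le (hdec s hs).1).trans (le_of_eq ?_),
      (S.le_opNorm_of_le (hdec s hs).2).trans (le_of_eq ?_)⟩ <;> rw [hM] <;> ring
  have hrep := Pool.Agent.X131.DW.t_REP2.{v} H c b' B hb' hB.coer (S y) _ _ hker2
    ⟨γ0 / 2, M, hγ2, hdecS⟩ (fun t => S (φ t)) u w M' hSφ.aestronglyMeasurable
    (Eventually.of_forall fun t => (hSφn t).trans (le_max_left _ _)) huc hwc huM hwM hsu hsw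
  have hcoo := hco H (fun s => S (h s)) (S.continuous.comp hhc) (fun s hs => (hdecS s hs).2)
  have heq : ∫ s in Ioi (0 : ℝ), cutL n (-s) * (‖S (h s)‖ ^ 2 / (‖S (h s)‖ + δ))
      = inner ℝ (w 0) (S y) := by
    rw [hrep]
    refine setIntegral_congr_fun measurableSet_Ioi fun s _ => ?_
    show cutL n (-s) * (‖S (h s)‖ ^ 2 / (‖S (h s)‖ + δ)) =
      inner ℝ (S ((cutL n (-s) / (‖S (h (- -s))‖ + δ)) • h (- -s))) (S (h s))
    rw [neg_neg, map_smul, real_inner_smul_left, real_inner_self_eq_norm_sq]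
    ring
  have h5 : inner ℝ (w 0) (S y) ≤ K * (1 + ε * (C * m)) * ‖S y‖ :=
    (real_inner_le_norm _ _).trans (mul_le_mul_of_nonneg_right hKK (norm_nonneg _))
  have h6 : ε * X ≤ η / 2 := by
    have h7 : ε * (2 * (X + 1)) ≤ η := by
      rw [le_div_iff₀ (by positivity)] at hεe
      exact hεe
    nlinarith
  have h8 : K * (1 + ε * (C * m)) * ‖S y‖ = K * ‖S y‖ + ε * X := by rw [hX]; ring
  show ∫ s in Ioi (0 : ℝ), ‖S (h s)‖ ≤ K * ‖S y‖ + η
  rw [heq] at hcoo
  linarith

end Pool.Agent.X154.DW
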